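import Mathlib
import Pool.Agent.H71.AU.Core
import Pool.Agent.H71.AU.Grp
import Pool.Agent.H71.AU.Fit

/-! Project HP (MP_68c2bd): properly discontinuous affine groups on `ℝⁿ⁺¹` with a subgroup `ℤⁿ`
that preserves a hyperplane.  Definitions, in the linear model: the affine space is the set
`τ = 1` in `E`. -/

set_option autoImplicit false

namespace Pool.Agent.H14.HP

open NormedSpace Module Pool.Agent.H71.AU

variable {E : Type*} [NormedAddCommGroup E] [NormedSpace ℝ E] {Γ : Type*} [Group Γ]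

/-- A properly discontinuous action on the affine space `τ = 1`. -/
structure Sys (π : Γ →* (E →L[ℝ] E)) (τ : E →L[ℝ] ℝ) : Prop where
  tau : ∀ g y, τ (π g y) = τ y
  prop : ∀ R : ℝ, {g : Γ | ∃ x, τ x = 1 ∧ ‖x‖ ≤ R ∧ ‖π g x‖ ≤ R}.Finite

/-- `A` is abelian, preserves the hyperplane `φ = 0`, acts on it unipotently, and acts cocompactly
on its part in `τ = 1`. -/
structure Hyp (π : Γ →* (E →L[ℝ] E)) (τ : E →L[ℝ] ℝ) (A : Subgroup Γ) (φ : E →L[ℝ] ℝ) :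
    Prop where
  comm : ∀ a ∈ A, ∀ b ∈ A, a * b = b * a
  inv : ∀ a ∈ A, ∃ μ : ℝ, ∀ y, φ (π a y) = μ * φ y
  uni : ∀ a ∈ A, ∃ N : ℕ, ∀ y, φ y = 0 → ((π a - 1) ^ N) y = 0
  coc : ∃ R : ℝ, ∀ y, φ y = 0 → τ y = 1 → ∃ a ∈ A, ‖π a y‖ ≤ R

/-- Three functionals with dual vectors. -/
structure Frame (τ p q : E →L[ℝ] ℝ) (x₀ v w : E) : Prop where
  tx : τ x₀ = 1
  px : p x₀ = 0
  qx : q x₀ = 0
  tv : τ v = 0
  pv : p v = 1
  qv : q v = 0
  tw : τ w = 0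
  pw : p w = 0
  qw : q w = 1

/-- The common kernel of three functionals. -/
def W0 (τ p q : E →L[ℝ] ℝ) : Submodule ℝ E where
  carrier := {y | τ y = 0 ∧ p y = 0 ∧ q y = 0}
  add_mem' := by
    rintro x y ⟨h1, h2, h3⟩ ⟨k1, k2, k3⟩
    exact ⟨by rw [map_add, h1, k1, add_zero], by rw [map_add, h2, k2, add_zero],
      by rw [map_add, h3, k3, add_zero]⟩
  zero_mem' := ⟨map_zero _, map_zero _, map_zero _⟩
  smul_mem' := by
    rintro c x ⟨h1, h2, h3⟩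
    exact ⟨by rw [map_smul, h1, smul_zero], by rw [map_smul, h2, smul_zero],
      by rw [map_smul, h3, smul_zero]⟩

theorem mem_W0 {τ p q : E →L[ℝ] ℝ} {y : E} : y ∈ W0 τ p q ↔ τ y = 0 ∧ p y = 0 ∧ q y = 0 :=
  Iff.rfl

theorem Frame.swap {τ p q : E →L[ℝ] ℝ} {x₀ v w : E} (F : Frame τ p q x₀ v w) :
    Frame τ q p x₀ w v :=
  ⟨F.tx, F.qx, F.px, F.tw, F.qw, F.pw, F.tv, F.qv, F.pv⟩

/-- Every vector is a combination of the frame and a vector of `W0`. -/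
theorem Frame.dec {τ p q : E →L[ℝ] ℝ} {x₀ v w : E} (F : Frame τ p q x₀ v w) (y : E) :
    y - (τ y • x₀ + p y • v + q y • w) ∈ W0 τ p q := by
  refine ⟨?_, ?_, ?_⟩
  · simp [F.tx, F.tv, F.tw]
  · simp [F.px, F.pv, F.pw]
  · simp [F.qx, F.qv, F.qw]

/-- A functional that vanishes on `W0` is a combination of the three. -/
theorem Frame.comb {τ p q : E →L[ℝ] ℝ} {x₀ v w : E} (F : Frame τ p q x₀ v w)
    (ψ : E →L[ℝ] ℝ) (hψ : ∀ y ∈ W0 τ p q, ψ y = 0) (y : E) :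
    ψ y = ψ x₀ * τ y + ψ v * p y + ψ w * q y := by
  have h := hψ _ (F.dec y)
  rw [map_sub, sub_eq_zero] at h
  rw [h]
  simp only [map_add, map_smul, smul_eq_mul]
  ring

end Pool.Agent.H14.HP
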