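import Mathlib
import Pool.Agent.H14.HP.Defs

/-! HP1: an invariant proper subspace of a group `ℤᵏ` is a hyperplane, on which the group is
unipotent and cocompact. -/

set_option autoImplicit false

namespace Pool.Agent.H14.HP

open NormedSpace Module Pool.Agent.H71.AU

section HypEx

variable {E : Type*} [NormedAddCommGroup E] [NormedSpace ℝ E] {Γ : Type*} [Group Γ]

/-- Restriction of the action of `A` to an invariant subspace. -/
noncomputable def hypEx_res (π : Γ →* (E →L[ℝ] E)) (A : Subgroup Γ) (M : Submodule ℝ E)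
    (hM : ∀ a ∈ A, ∀ y ∈ M, π a y ∈ M) : A →* (M →L[ℝ] M) where
  toFun a := ((π (a : Γ)).comp M.subtypeL).codRestrict M (fun y => hM a a.2 y y.2)
  map_one' := by
    ext x
    simp
  map_mul' a b := by
    ext x
    simp

theorem hypEx_res_apply (π : Γ →* (E →L[ℝ] E)) (A : Subgroup Γ) (M : Submodule ℝ E)
    (hM : ∀ a ∈ A, ∀ y ∈ M, π a y ∈ M) (a : A) (x : M) :
    ((hypEx_res π A M hM a x : M) : E) = π (a : Γ) x := rfl

theorem hypEx_res_pow (π : Γ →* (E →L[ℝ] E)) (A : Subgroup Γ) (M : Submodule ℝ E)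
    (hM : ∀ a ∈ A, ∀ y ∈ M, π a y ∈ M) (a : A) (m : ℕ) (x : M) :
    ((((hypEx_res π A M hM a - 1) ^ m) x : M) : E) = ((π (a : Γ) - 1) ^ m) x := by
  induction m generalizing x with
  | zero => simp
  | succ m ih =>
    rw [pow_succ, pow_succ]
    have h1 : ((hypEx_res π A M hM a - 1) ^ m * (hypEx_res π A M hM a - 1)) x =
      ((hypEx_res π A M hM a - 1) ^ m) ((hypEx_res π A M hM a - 1) x) := rfl
    rw [h1, ih]
    rfl

theorem hypEx_lin_pow (T : E →L[ℝ] E) (m : ℕ) (x : E) :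
    (((T : E →ₗ[ℝ] E) - 1) ^ m) x = ((T - 1) ^ m) x := by
  induction m generalizing x with
  | zero => simp
  | succ m ih =>
    rw [pow_succ, pow_succ]
    have h1 : (((T : E →ₗ[ℝ] E) - 1) ^ m * ((T : E →ₗ[ℝ] E) - 1)) x =
      (((T : E →ₗ[ℝ] E) - 1) ^ m) (((T : E →ₗ[ℝ] E) - 1) x) := rfl
    rw [h1, ih]
    rfl

/-- The part of `M` on which `A` is unipotent. -/
def hypEx_sub (π : Γ →* (E →L[ℝ] E)) (A : Subgroup Γ) (M : Submodule ℝ E) (N : ℕ) :
    Submodule ℝ E where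
  carrier := {y | y ∈ M ∧ ∀ a ∈ A, ((π a - 1) ^ N) y = 0}
  add_mem' := by
    rintro x y ⟨h1, h2⟩ ⟨k1, k2⟩
    exact ⟨M.add_mem h1 k1, fun a ha => by rw [map_add, h2 a ha, k2 a ha, add_zero]⟩
  zero_mem' := ⟨M.zero_mem, fun a _ => map_zero _⟩
  smul_mem' := by
    rintro c x ⟨h1, h2⟩
    exact ⟨M.smul_mem c h1, fun a ha => by rw [map_smul, h2 a ha, smul_zero]⟩

theorem hypEx_sub_inv (π : Γ →* (E →L[ℝ] E)) (A : Subgroup Γ)
    (hA : ∀ a ∈ A, ∀ b ∈ A, a * b = b * a) (M : Submodule ℝ E)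
    (hM : ∀ a ∈ A, ∀ y ∈ M, π a y ∈ M) (N : ℕ) :
    ∀ a ∈ A, ∀ y ∈ hypEx_sub π A M N, π a y ∈ hypEx_sub π A M N := by
  rintro a ha y ⟨h1, h2⟩
  refine ⟨hM a ha y h1, fun b hb => ?_⟩
  have hc : Commute (π b - 1) (π a) := by
    have h3 : Commute (π b) (π a) := by
      rw [Commute, SemiconjBy, ← map_mul, ← map_mul, hA b hb a ha]
    exact h3.sub_left (Commute.one_left _)
  have h4 : ((π b - 1) ^ N) (π a y) = π a (((π b - 1) ^ N) y) := by
    have := congrArg (fun T : E →L[ℝ] E => T y) (hc.pow_left N).eq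
    exact this
  rw [h4, h2 b hb, map_zero]

end HypEx

variable {E : Type*} [NormedAddCommGroup E] [NormedSpace ℝ E] [CompleteSpace E]
  [FiniteDimensional ℝ E] {Γ : Type*} [Group Γ] {π : Γ →* (E →L[ℝ] E)} {τ : E →L[ℝ] ℝ}

theorem hyp_exists (S : Sys π τ) (A : Subgroup Γ) (hA : ∀ a ∈ A, ∀ b ∈ A, a * b = b * a)
    (k : ℕ) (f : (Fin k → ℤ) →+ Additive A) (hf : Function.Injective f)
    (hE : finrank ℝ E = k + 2)
    (M : Submodule ℝ E) (hM : ∀ a ∈ A, ∀ y ∈ M, π a y ∈ M) (hne : M ≠ ⊤)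
    (x : E) (hx : x ∈ M) (hτx : τ x = 1) :
    ∃ φ : E →L[ℝ] ℝ, φ ≠ 0 ∧ φ x = 0 ∧ Hyp π τ A φ := by
  classical
  have hfM : finrank ℝ M ≤ k + 1 := by
    have := Submodule.finrank_lt_finrank_of_lt (lt_top_iff_ne_top.2 hne)
    rw [finrank_top, hE] at this
    omega
  set N : ℕ := finrank ℝ M + 1 with hN
  -- the common generalised eigenvector
  obtain ⟨x₁, hx₁, hx₁A⟩ := fit
    (Set.range (fun a : A => ((hypEx_res π A M hM a : M →L[ℝ] M) : M →ₗ[ℝ] M)))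
    (by
      rintro _ ⟨a, rfl⟩ _ ⟨b, rfl⟩
      apply LinearMap.ext
      intro y
      apply Subtype.ext
      change π (a : Γ) (π (b : Γ) y) = π (b : Γ) (π (a : Γ) y)
      have h1 : π (a : Γ) * π (b : Γ) = π (b : Γ) * π (a : Γ) := by
        rw [← map_mul, ← map_mul, hA a a.2 b b.2]
      exact congrArg (fun T : E →L[ℝ] E => T (y : E)) h1)
    ((τ.comp M.subtypeL : M →L[ℝ] ℝ) : M →ₗ[ℝ] ℝ)
    (by
      rintro _ ⟨a, rfl⟩ y
      exact S.tau a y)
    (by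
      intro h
      have h1 := congrArg (fun φ : M →ₗ[ℝ] ℝ => φ ⟨x, hx⟩) h
      have h2 : τ x = 0 := h1
      rw [hτx] at h2
      exact one_ne_zero h2)
  let M' : Submodule ℝ E := hypEx_sub π A M N
  have hM'M : M' ≤ M := fun y hy => hy.1
  have hM' : ∀ a ∈ A, ∀ y ∈ M', π a y ∈ M' := hypEx_sub_inv π A hA M hM N
  have hx₁M' : (x₁ : E) ∈ M' := by
    refine ⟨x₁.2, fun a ha => ?_⟩
    have h1 := hx₁A _ ⟨⟨a, ha⟩, rfl⟩
    rw [hypEx_lin_pow] at h1
    have h2 := congrArg Subtype.val h1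
    rw [hypEx_res_pow] at h2
    exact h2
  -- the core theorem for the group `A`
  let ρ : A →* (M' →L[ℝ] M') := hypEx_res π A M' hM'
  let τ' : M' →L[ℝ] ℝ := τ.comp M'.subtypeL
  have hτ' : ∀ (g : A) y, τ' (ρ g y) = τ' y := fun g y => S.tau g y
  have hA' : ∀ a ∈ (⊤ : Subgroup A), ∀ b ∈ (⊤ : Subgroup A), a * b = b * a :=
    fun a _ b _ => Subtype.ext (hA a a.2 b b.2)
  have hu : ∀ a ∈ (⊤ : Subgroup A), IsNilpotent (ρ a - 1) := by
    intro a _
    refine ⟨N, ?_⟩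
    ext1 y
    apply Subtype.ext
    rw [hypEx_res_pow]
    exact y.2.2 a a.2
  have hprop : ∀ R : ℝ, {g : A | ∃ y, τ' y = 1 ∧ ‖y‖ ≤ R ∧ ‖ρ g y‖ ≤ R}.Finite := by
    intro R
    have h1 := (S.prop R).preimage (f := (Subtype.val : A → Γ)) Subtype.val_injective.injOn
    refine h1.subset ?_
    rintro g ⟨y, hy1, hy2, hy3⟩
    exact ⟨y, hy1, hy2, hy3⟩
  let y₁ : M' := ⟨x₁, hx₁M'⟩
  have hy₁ : τ' y₁ = 1 := hx₁
  let f' : (Fin k → ℤ) →+ Additive (⊤ : Subgroup A) :=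
    (MonoidHom.toAdditive (Subgroup.topEquiv (G := A)).symm.toMonoidHom).comp f
  have hf' : Function.Injective f' := by
    intro a b hab
    apply hf
    have h1 : (Subgroup.topEquiv (G := A)).symm (Additive.toMul (f a)) =
        (Subgroup.topEquiv (G := A)).symm (Additive.toMul (f b)) := hab
    exact Additive.toMul.injective ((Subgroup.topEquiv (G := A)).symm.injective h1)
  have hrank := core_rank hA' hu hprop hy₁ k f' hf'
  have D := core_dat hA' hu hprop hτ' hy₁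
  have hle := D.toLin.finrank_le
  have hsurj : Function.Surjective (τ' : M' →ₗ[ℝ] ℝ) := by
    intro c
    exact ⟨c • y₁, by simp [hy₁]⟩
  have hker : finrank ℝ (LinearMap.ker (τ' : M' →ₗ[ℝ] ℝ)) + 1 = finrank ℝ M' := by
    have h1 := LinearMap.finrank_range_add_finrank_ker (τ' : M' →ₗ[ℝ] ℝ)
    rw [LinearMap.range_eq_top.2 hsurj, finrank_top, finrank_self] at h1
    omega
  have hmono : finrank ℝ M' ≤ finrank ℝ M := Submodule.finrank_mono hM'M
  have hMM : M' = M := Submodule.eq_of_le_of_finrank_eq hM'M (by omega)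
  -- the functional
  obtain ⟨φ₀, hφ₀, hφM⟩ := Submodule.exists_le_ker_of_lt_top M (lt_top_iff_ne_top.2 hne)
  have hfk : finrank ℝ (LinearMap.ker φ₀) + 1 = finrank ℝ E := by
    have h1 := LinearMap.finrank_range_add_finrank_ker φ₀
    have h2 : LinearMap.range φ₀ = ⊤ :=
      LinearMap.range_eq_top.2 (LinearMap.surjective_of_ne_zero hφ₀)
    rw [h2, finrank_top, finrank_self] at h1
    omega
  have hkM : M = LinearMap.ker φ₀ := Submodule.eq_of_le_of_finrank_eq hφM (by omega)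
  have hmem : ∀ y : E, φ₀ y = 0 → y ∈ M := by
    intro y hy
    rw [hkM]
    exact hy
  obtain ⟨z, hz⟩ := LinearMap.surjective_of_ne_zero hφ₀ 1
  refine ⟨LinearMap.toContinuousLinearMap φ₀, ?_, ?_, ?_, ?_, ?_, ?_⟩
  · intro h
    apply hφ₀
    ext y
    have := congrArg (fun ψ : E →L[ℝ] ℝ => ψ y) h
    simpa using this
  · have : φ₀ x = 0 := hφM hx
    simpa using this
  · exact hA
  · intro a ha
    refine ⟨φ₀ (π a z), fun y => ?_⟩
    have h1 : y - φ₀ y • z ∈ M := hmem _ (by rw [map_sub, map_smul, hz, smul_eq_mul, mul_one,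
      sub_self])
    have h2 : φ₀ (π a (y - φ₀ y • z)) = 0 := hφM (hM a ha _ h1)
    rw [map_sub, map_smul, map_sub, map_smul, smul_eq_mul, sub_eq_zero] at h2
    change φ₀ (π a y) = φ₀ (π a z) * φ₀ y
    rw [h2, mul_comm]
  · intro a ha
    refine ⟨N, fun y hy => ?_⟩
    have hy0 : φ₀ y = 0 := hy
    have h1 : y ∈ M' := by
      rw [hMM]
      exact hmem y hy0
    exact h1.2 a ha
  · obtain ⟨R, hR⟩ := cobounded (core_Lam ρ ⊤ hA' hu)
    obtain ⟨C, hC⟩ := core_exp_bdd (M := M') R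
    refine ⟨C * ‖y₁‖, fun y hy hτy => ?_⟩
    have hy0 : φ₀ y = 0 := hy
    have h1 : y ∈ M' := by
      rw [hMM]
      exact hmem y hy0
    have hw : (⟨y, h1⟩ - y₁ : M') ∈ LinearMap.ker (τ' : M' →ₗ[ℝ] ℝ) := by
      rw [LinearMap.mem_ker]
      change τ' (⟨y, h1⟩ - y₁) = 0
      rw [map_sub, hy₁, sub_eq_zero]
      exact hτy
    obtain ⟨X, hX, hXe⟩ := trans D.toLin (by omega) _ hw
    obtain ⟨a, -, -, h2⟩ := core_near hA' hu hR hC hX y₁
    rw [hXe, add_sub_cancel] at h2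
    exact ⟨((a⁻¹ : A) : Γ), (a⁻¹ : A).2, h2⟩

end Pool.Agent.H14.HP
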